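import Mathlib

/-! A symmetric ideal whose Hilbert function is not that of a symmetric binomial ideal. -/

set_option autoImplicit false

namespace Pool.Agent.Results.MP_f9b6b5_al.Counter

open MvPolynomial Module

section defs
variable {k : Type} [Field k] {n : ℕ}

/-- The ideal contains all homogeneous components of its elements. -/
def IsHomog (I : Ideal (MvPolynomial (Fin n) k)) : Prop :=
  ∀ f ∈ I, ∀ d, homogeneousComponent d f ∈ I

/-- The ideal is stable under all permutations of the variables. -/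
def IsSymm (I : Ideal (MvPolynomial (Fin n) k)) : Prop :=
  ∀ (σ : Equiv.Perm (Fin n)), ∀ f ∈ I, rename σ f ∈ I

/-- A nonzero polynomial invariant up to scalars. -/
def KSymm (f : MvPolynomial (Fin n) k) : Prop :=
  f ≠ 0 ∧ ∀ σ : Equiv.Perm (Fin n), ∃ c : k, rename σ f = c • f

/-- A minimal homogeneous generating set. -/
def IsMinGen (I : Ideal (MvPolynomial (Fin n) k)) (S : Set (MvPolynomial (Fin n) k)) : Prop :=
  (∀ f ∈ S, ∃ d, f.IsHomogeneous d) ∧ Ideal.span S = I ∧ ∀ f ∈ S, Ideal.span (S \ {f}) ≠ I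

/-- A monomial or a binomial. -/
def MonOrBin (f : MvPolynomial (Fin n) k) : Prop :=
  (∃ m, f = monomial m 1) ∨
    ∃ (a b : k) (m m' : Fin n →₀ ℕ), a ≠ 0 ∧ b ≠ 0 ∧ m ≠ m' ∧ f = monomial m a + monomial m' b

/-- The degree `d` part of `I`. -/
noncomputable def part (I : Ideal (MvPolynomial (Fin n) k)) (d : ℕ) :
    Submodule k (MvPolynomial (Fin n) k) := I.restrictScalars k ⊓ homogeneousSubmodule (Fin n) k d

/-- The Hilbert function `d ↦ dim I_d`. -/
noncomputable def hilb (I : Ideal (MvPolynomial (Fin n) k)) (d : ℕ) : ℕ := finrank k (part I d)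

instance (I : Ideal (MvPolynomial (Fin n) k)) (d : ℕ) : Module.Finite k (part I d) :=
  have : Module.Finite k (homogeneousSubmodule (Fin n) k d) :=
    Module.Finite.iff_fg.2 (homogeneousSubmodule_fg _ _ d)
  Submodule.finiteDimensional_of_le inf_le_right

attribute [local instance] MvPolynomial.gradedAlgebra in
lemma hc_mul (r f : MvPolynomial (Fin n) k) {i : ℕ} (h : f.IsHomogeneous i) (d : ℕ) :
    homogeneousComponent d (r * f) =
      if i ≤ d then homogeneousComponent (d - i) r * f else 0 := by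
  have := DirectSum.coe_decompose_mul_of_right_mem (homogeneousSubmodule (Fin n) k) (a := r) d h
  simp only [← decomposition.decompose'_apply]
  exact this

lemma le_hilb {I : Ideal (MvPolynomial (Fin n) k)} {d m : ℕ} (v : Fin m → MvPolynomial (Fin n) k)
    (h : ∀ i, v i ∈ part I d) (hv : LinearIndependent k v) : m ≤ hilb I d := by
  have h1 : LinearIndependent k fun i => (⟨v i, h i⟩ : part I d) :=
    LinearIndependent.of_comp (part I d).subtype hv
  have h2 := h1.fintype_card_le_finrank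
  rwa [Fintype.card_fin] at h2

lemma hilb_le {I : Ideal (MvPolynomial (Fin n) k)} {d m : ℕ} (v : Fin m → MvPolynomial (Fin n) k)
    (h : part I d ≤ Submodule.span k (Set.range v)) : hilb I d ≤ m :=
  haveI := FiniteDimensional.span_of_finite k (Set.finite_range v)
  (Submodule.finrank_mono h).trans ((finrank_range_le_card (R := k) v).trans_eq (Fintype.card_fin m))

end defs

variable {k : Type} [Field k]

noncomputable def p : MvPolynomial (Fin 3) k := (X 0 + X 1 + X 2) * (X 0 - X 1)
noncomputable def q : MvPolynomial (Fin 3) k := (X 0 + X 1 + X 2) * (X 1 - X 2)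
noncomputable def II : Ideal (MvPolynomial (Fin 3) k) := Ideal.span {p, q}

lemma hs : (X 0 + X 1 + X 2 : MvPolynomial (Fin 3) k).IsHomogeneous 1 :=
  ((isHomogeneous_X _ _).add (isHomogeneous_X _ _)).add (isHomogeneous_X _ _)
lemma hp : (p (k := k)).IsHomogeneous 2 := hs.mul ((isHomogeneous_X _ _).sub (isHomogeneous_X _ _))
lemma hq : (q (k := k)).IsHomogeneous 2 := hs.mul ((isHomogeneous_X _ _).sub (isHomogeneous_X _ _))
lemma pI : p ∈ II (k := k) := Ideal.subset_span (by simp)
lemma qI : q ∈ II (k := k) := Ideal.subset_span (by simp)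

lemma hcI {f : MvPolynomial (Fin 3) k} (hf : f ∈ II) (d : ℕ) :
    ∃ a b : MvPolynomial (Fin 3) k, homogeneousComponent d f =
    if 2 ≤ d then homogeneousComponent (d - 2) a * p + homogeneousComponent (d - 2) b * q else 0 := by
  obtain ⟨a, b, rfl⟩ := Ideal.mem_span_pair.1 hf
  refine ⟨a, b, ?_⟩
  rw [map_add, hc_mul _ _ hp, hc_mul _ _ hq]
  split_ifs <;> simp

lemma homI : IsHomog (II (k := k)) := fun f hf d => by
  obtain ⟨a, b, h⟩ := hcI hf d
  rw [h]; split_ifs
  · exact add_mem (Ideal.mul_mem_left _ _ pI) (Ideal.mul_mem_left _ _ qI)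
  · exact zero_mem _

lemma diffI (i j : Fin 3) : (X 0 + X 1 + X 2) * (X i - X j) ∈ II (k := k) := by
  have h1 := pI (k := k); have h2 := qI (k := k)
  have h3 := add_mem h1 h2
  fin_cases i <;> fin_cases j <;> simp only [Fin.zero_eta, Fin.mk_one, Fin.reduceFinMk] <;>
    first | (rw [sub_self, mul_zero]; exact zero_mem _) | exact h1 | exact h2 |
      (convert h3 using 1; simp only [p, q]; ring1) | (convert neg_mem h1 using 1; simp only [p]; ring1) |
      (convert neg_mem h2 using 1; simp only [q]; ring1) |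
      (convert neg_mem h3 using 1; simp only [p, q]; ring1)

lemma ren_s (σ : Equiv.Perm (Fin 3)) :
    rename σ (X 0 + X 1 + X 2 : MvPolynomial (Fin 3) k) = X 0 + X 1 + X 2 := by
  simpa [Fin.sum_univ_three] using Equiv.sum_comp σ fun i => (X i : MvPolynomial (Fin 3) k)

lemma symI : IsSymm (II (k := k)) := fun σ f hf => by
  obtain ⟨a, b, rfl⟩ := Ideal.mem_span_pair.1 hf
  simp only [p, q, map_add _ (a * _), map_mul, ren_s, map_sub, rename_X]
  exact add_mem (Ideal.mul_mem_left _ _ (diffI _ _)) (Ideal.mul_mem_left _ _ (diffI _ _))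

lemma part2 {f : MvPolynomial (Fin 3) k} (hf : f ∈ part II 2) : ∃ a b : k, f = a • p + b • q := by
  obtain ⟨a, b, h⟩ := hcI hf.1 2
  rw [homogeneousComponent_eq_self hf.2] at h
  exact ⟨_, _, by simpa [← smul_eq_C_mul] using h⟩

lemma part_lt {d : ℕ} (hd : d < 2) {f : MvPolynomial (Fin 3) k} (hf : f ∈ part II d) : f = 0 := by
  obtain ⟨a, b, h⟩ := hcI hf.1 d
  rwa [homogeneousComponent_eq_self hf.2, if_neg (by omega)] at h

lemma h3 : hilb (II (k := k)) 3 ≤ 5 := by
  refine hilb_le ![X 0 * p, X 1 * p, X 2 * p, X 0 * q, X 2 * q] fun f hf => ?_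
  obtain ⟨a, b, h⟩ := hcI hf.1 3
  rw [homogeneousComponent_eq_self hf.2, if_pos (by omega)] at h
  have hl : ∀ r : MvPolynomial (Fin 3) k, ∃ c : Fin 3 → k,
      ∑ i, c i • X i = homogeneousComponent 1 r := fun r =>
    (Submodule.mem_span_range_iff_exists_fun k).1
      (homogeneousSubmodule_one_eq_span_X (σ := Fin 3) (R := k) ▸ homogeneousComponent_mem 1 r)
  obtain ⟨c, hc⟩ := hl a
  obtain ⟨e, he⟩ := hl b
  refine (Submodule.mem_span_range_iff_exists_fun k).2
    ⟨![c 0, c 1 - e 1, c 2 + e 1, e 0 + e 1, e 2], ?_⟩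
  rw [h, ← hc, ← he]
  simp only [Fin.sum_univ_five, Fin.sum_univ_three, Matrix.cons_val_zero, Matrix.cons_val_one,
    Matrix.cons_val, smul_eq_C_mul, map_add, map_sub, p, q]
  ring

lemma noSym [CharZero k] (S : Set (MvPolynomial (Fin 3) k)) (hS : IsMinGen II S) :
    ∀ f ∈ S, ¬ KSymm f := by
  rintro f hf ⟨h0, hk⟩
  obtain ⟨d, hd⟩ := hS.1 f hf
  have hfI : f ∈ II := hS.2.1 ▸ Ideal.subset_span hf
  rcases lt_trichotomy d 2 with h | rfl | h
  · exact h0 (part_lt h ⟨hfI, hd⟩)
  · obtain ⟨a, b, rfl⟩ := part2 ⟨hfI, hd⟩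
    obtain ⟨c, hc⟩ := hk (Equiv.swap 0 1)
    obtain ⟨e, he⟩ := hk (Equiv.swap 1 2)
    have c0 := congrArg (eval ![1, 0, 0]) hc
    have c2 := congrArg (eval ![0, 0, 1]) hc
    have e0 := congrArg (eval ![1, 0, 0]) he
    have e1 := congrArg (eval ![0, 1, 0]) he
    simp [p, q, Equiv.swap_apply_def] at c0 c2 e0 e1
    apply h0
    have hb : b = 0 := by
      by_contra hb
      have c1 : c = 1 := mul_right_cancel₀ hb (by rw [← c2, one_mul])
      rw [c1] at c0
      have ha : a ≠ 0 := fun ha => hb (by rw [ha] at c0; linear_combination c0)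
      have e' : e = 1 := mul_right_cancel₀ ha (by rw [← e0, one_mul])
      rw [e'] at e1
      exact ha (by linear_combination (-1 / 3 : k) * e1 - (2 / 3 : k) * c0)
    by_cases ha : a = 0
    · simp [ha, hb]
    · have e' : e = 1 := mul_right_cancel₀ ha (by rw [← e0, one_mul])
      rw [e', hb] at e1
      exact absurd (by linear_combination e1) ha
  · have key : ∀ g ∈ Ideal.span S, ∀ r, homogeneousComponent 2 (r * g) ∈ Ideal.span (S \ {f}) := by
      intro g hg
      induction hg using Submodule.span_induction with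
      | mem g hg =>
        intro r
        obtain ⟨i, hi⟩ := hS.1 g hg
        rw [hc_mul _ _ hi]
        split_ifs with h2
        · refine Ideal.mul_mem_left _ _ (Ideal.subset_span ⟨hg, ?_⟩)
          rintro rfl
          have := hd.inj_right hi h0
          omega
        · exact zero_mem _
      | zero => simp
      | add x y _ _ hx hy => intro r; rw [mul_add, map_add]; exact add_mem (hx r) (hy r)
      | smul c x _ hx => intro r; rw [smul_eq_mul, ← mul_assoc]; exact hx _
    refine hS.2.2 f hf (le_antisymm (hS.2.1 ▸ Ideal.span_mono Set.sdiff_subset) ?_)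
    rw [II, Ideal.span_le]
    rintro _ (rfl | rfl)
    · simpa [homogeneousComponent_eq_self hp] using key p (hS.2.1 ▸ pI) 1
    · simpa [homogeneousComponent_eq_self hq] using key q (hS.2.1 ▸ qI) 1

noncomputable def w (e : Bool) (i : Fin 3) : MvPolynomial (Fin 3) k :=
  cond e (X i ^ 2) (∏ j ∈ Finset.univ.erase i, X j)

lemma w_eq : w (k := k) false 0 = X 1 * X 2 ∧ w (k := k) false 1 = X 0 * X 2 ∧
    w (k := k) false 2 = X 0 * X 1 := by
  refine ⟨?_, ?_, ?_⟩
  · rw [w, show Finset.univ.erase (0 : Fin 3) = {1, 2} by decide]; simp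
  · rw [w, show Finset.univ.erase (1 : Fin 3) = {0, 2} by decide]; simp
  · rw [w, show Finset.univ.erase (2 : Fin 3) = {0, 1} by decide]; simp

lemma ren_w (σ : Equiv.Perm (Fin 3)) (e : Bool) (i : Fin 3) :
    rename σ (w (k := k) e i) = w e (σ i) := by
  cases e
  · simp only [w, cond_false, map_prod, rename_X]
    exact Finset.prod_equiv σ (by simp) (by simp)
  · simp [w]

lemma w_hom (e : Bool) (i : Fin 3) : (w (k := k) e i).IsHomogeneous 2 := by
  cases e
  · fin_cases i <;> simp only [Fin.zero_eta, Fin.mk_one, Fin.reduceFinMk, w_eq] <;>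
      exact (isHomogeneous_X _ _).mul (isHomogeneous_X _ _)
  · exact isHomogeneous_X_pow _ _

lemma mon2 (m : Fin 3 →₀ ℕ) (h : m.degree = 2) : ∃ e i, monomial m (1 : k) = w e i := by
  have h1 : monomial m (1 : k) = X 0 ^ m 0 * X 1 ^ m 1 * X 2 ^ m 2 := by
    rw [monomial_eq, Finsupp.prod_fintype _ _ (by simp)]; simp [Fin.prod_univ_three]
  rw [Finsupp.degree_eq_sum, Fin.sum_univ_three] at h
  rw [h1]
  have : (m 0 = 2 ∧ m 1 = 0 ∧ m 2 = 0) ∨ (m 0 = 0 ∧ m 1 = 2 ∧ m 2 = 0) ∨ (m 0 = 0 ∧ m 1 = 0 ∧ m 2 = 2)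
      ∨ (m 0 = 0 ∧ m 1 = 1 ∧ m 2 = 1) ∨ (m 0 = 1 ∧ m 1 = 0 ∧ m 2 = 1) ∨
      (m 0 = 1 ∧ m 1 = 1 ∧ m 2 = 0) := by omega
  rcases this with h | h | h | h | h | h <;> rw [h.1, h.2.1, h.2.2]
  exacts [⟨true, 0, by simp [w]⟩, ⟨true, 1, by simp [w]⟩, ⟨true, 2, by simp [w]⟩,
    ⟨false, 0, by simp [w_eq]⟩, ⟨false, 1, by simp [w_eq]⟩, ⟨false, 2, by simp [w_eq]⟩]

lemma six [CharZero k] {J : Ideal (MvPolynomial (Fin 3) k)} (hJ : IsSymm J) (e : Bool)
    (i l : Fin 3) (hil : i ≠ l) (h : w e i - w e l ∈ J) : 6 ≤ hilb J 3 := by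
  have hall : ∀ a b : Fin 3, a ≠ b → w e a - w e b ∈ J := fun a b hab => by
    obtain ⟨σ, h1, h2⟩ : ∃ σ : Equiv.Perm (Fin 3), σ i = a ∧ σ l = b := by
      clear h; revert i l a b; decide
    simpa [ren_w, h1, h2] using hJ σ _ h
  have hm : ∀ j a b : Fin 3, a ≠ b → X j * (w e a - w e b) ∈ part J 3 := fun j a b hab =>
    ⟨Ideal.mul_mem_left _ _ (hall a b hab), (isHomogeneous_X k j).mul ((w_hom e a).sub (w_hom e b))⟩
  refine le_hilb ![X 0 * (w e 0 - w e 1), X 1 * (w e 0 - w e 1), X 2 * (w e 0 - w e 1),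
    X 0 * (w e 1 - w e 2), X 1 * (w e 1 - w e 2), X 2 * (w e 1 - w e 2)]
    (fun j => by fin_cases j <;> exact hm _ _ _ (by decide)) ?_
  rw [Fintype.linearIndependent_iff]
  intro c hc
  have a1 := congrArg (eval ![0, 1, 1]) hc
  have a2 := congrArg (eval ![0, 1, -1]) hc
  have a3 := congrArg (eval ![2, 1, 1]) hc
  have a4 := congrArg (eval ![1, 1, 0]) hc
  have a5 := congrArg (eval ![1, -1, 0]) hc
  have a6 := congrArg (eval ![1, 1, 2]) hc
  have fin : ∀ u : k, u ≠ 0 → c 1 + c 2 = 0 → c 1 - c 2 = 0 → 2 * c 0 + c 1 + c 2 = 0 →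
      c 3 + c 4 = 0 → c 3 - c 4 = 0 → c 3 + c 4 + 2 * c 5 = 0 → ∀ j, c j = 0 := by
    intro _ _ b1 b2 b3 b4 b5 b6 j
    fin_cases j <;> simp only [Fin.zero_eta, Fin.mk_one, Fin.reduceFinMk]
    · linear_combination (b3 - b1) / 2
    · linear_combination (b1 + b2) / 2
    · linear_combination (b1 - b2) / 2
    · linear_combination (b4 + b5) / 2
    · linear_combination (b4 - b5) / 2
    · linear_combination (b6 - b4) / 2
  cases e
  · simp only [Fin.sum_univ_six, w_eq, Matrix.cons_val_zero, Matrix.cons_val_one, Matrix.cons_val,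
      map_add, smul_eval, map_mul, map_sub, eval_X, map_zero] at a1 a2 a3 a4 a5 a6
    exact fin 1 one_ne_zero (by linear_combination a1) (by linear_combination -a2)
      (by linear_combination -a3) (by linear_combination -a4) (by linear_combination a5)
      (by linear_combination a6)
  · simp only [Fin.sum_univ_six, w, cond_true, Matrix.cons_val_zero, Matrix.cons_val_one,
      Matrix.cons_val, map_add, smul_eval, map_mul, map_sub, map_pow, eval_X, map_zero]
      at a1 a2 a3 a4 a5 a6
    exact fin 1 one_ne_zero (by linear_combination -a1) (by linear_combination -a2)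
      (by linear_combination a3 / 3) (by linear_combination a4) (by linear_combination a5)
      (by linear_combination -a6 / 3)

lemma fin_case [CharZero k] {J : Ideal (MvPolynomial (Fin 3) k)} (hJ : IsSymm J)
    (h2 : hilb J 2 ≤ 2) (h3 : hilb J 3 ≤ 5) (a b : k) (ha : a ≠ 0) (e e' : Bool) (i j : Fin 3)
    (hne : ¬ (e = e' ∧ i = j)) (h : a • w e i + b • w e' j ∈ J) (hb : i = j → b ≠ 0) : False := by
  by_cases hij : i = j
  · subst hij
    have hb := hb rfl
    have hall : ∀ l, a • w e l + b • w e' l ∈ part J 2 := fun l =>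
      ⟨by simpa [ren_w] using hJ (Equiv.swap i l) _ h,
        add_mem (Submodule.smul_mem _ _ (w_hom e l)) (Submodule.smul_mem _ _ (w_hom e' l))⟩
    have := le_hilb _ hall (by
      rw [Fintype.linearIndependent_iff]
      intro c hc l
      have a1 := congrArg (eval ![1, 0, 0]) hc
      have a2 := congrArg (eval ![0, 1, 0]) hc
      have a3 := congrArg (eval ![0, 0, 1]) hc
      cases e <;> cases e' <;> simp at hne <;>
        simp [Fin.sum_univ_three, w_eq, show ∀ i, w (k := k) true i = X i ^ 2 from fun _ => rfl,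
          ha, hb] at a1 a2 a3 <;> fin_cases l <;> assumption)
    omega
  · obtain ⟨l, h1, h4⟩ : ∃ l, i ≠ l ∧ Equiv.swap i l j = j := by
      clear h hb hne; revert i j; decide
    have h5 := sub_mem h (hJ (Equiv.swap i l) _ h)
    simp only [map_add, map_smul, ren_w, h4, Equiv.swap_apply_left, add_sub_add_right_eq_sub,
      ← smul_sub] at h5
    have := six hJ e i l h1 (by
      simpa [smul_smul, ha] using Submodule.smul_of_tower_mem J a⁻¹ h5)
    omega

theorem result (k : Type) [Field k] [CharZero k] : ∃ (n : ℕ) (I : Ideal (MvPolynomial (Fin n) k)),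
    IsHomog I ∧ IsSymm I ∧ (∀ S, IsMinGen I S → ∀ f ∈ S, ¬ KSymm f) ∧
    ∀ (S : Set (MvPolynomial (Fin n) k)), (∀ f ∈ S, MonOrBin f) → IsHomog (Ideal.span S) →
      IsSymm (Ideal.span S) → ∃ d, hilb I d ≠ hilb (Ideal.span S) d := by
  refine ⟨3, II, homI, symI, noSym, fun S hS hH hJ => ?_⟩
  by_contra! h
  have h2 : hilb (Ideal.span S) 2 ≤ 2 := h 2 ▸ hilb_le ![p, q] fun f hf => by
    obtain ⟨a, b, rfl⟩ := part2 hf
    exact (Submodule.mem_span_range_iff_exists_fun k).2 ⟨![a, b], by simp⟩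
  have hlt : ∀ d < 2, ∀ f ∈ Ideal.span S, homogeneousComponent d f = 0 := fun d hd f hf => by
    have : hilb (Ideal.span S) d = 0 := by
      rw [← h, hilb, Submodule.finrank_eq_zero, eq_bot_iff]
      exact fun g hg => part_lt hd hg
    rw [hilb, Submodule.finrank_eq_zero] at this
    exact (Submodule.mem_bot k).1 (this ▸ ⟨hH f hf d, homogeneousComponent_mem d f⟩)
  obtain ⟨s, hs, h0⟩ : ∃ s ∈ S, homogeneousComponent 2 s ≠ 0 := by
    by_contra! hc
    have key : ∀ g ∈ Ideal.span S, ∀ r, homogeneousComponent 2 (r * g) = 0 := by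
      intro g hg
      induction hg using Submodule.span_induction with
      | mem g hg =>
        intro r
        rw [← sum_homogeneousComponent g, Finset.mul_sum, map_sum]
        refine Finset.sum_eq_zero fun i _ => ?_
        rw [hc_mul _ _ (homogeneousComponent_isHomogeneous i g)]
        split_ifs with h2
        · rcases h2.lt_or_eq with h2 | rfl
          · rw [hlt i h2 g (Ideal.subset_span hg), mul_zero]
          · rw [hc g hg, mul_zero]
        · rfl
      | zero => simp
      | add x y _ _ hx hy => intro r; rw [mul_add, map_add, hx, hy, add_zero]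
      | smul c x _ hx => intro r; rw [smul_eq_mul, ← mul_assoc]; exact hx _
    have : hilb (Ideal.span S) 2 = 0 := by
      rw [hilb, Submodule.finrank_eq_zero, eq_bot_iff]
      intro g hg
      simpa [homogeneousComponent_eq_self hg.2] using key g hg.1 1
    rw [← h, hilb, Submodule.finrank_eq_zero] at this
    have h5 : p (k := k) = 0 := (Submodule.mem_bot k).1 (this ▸ ⟨pI, hp⟩)
    simpa [p] using congrArg (eval ![1, 0, 0]) h5
  have hJ2 := hH s (Ideal.subset_span hs) 2
  have F := fin_case hJ h2 (h 3 ▸ h3)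
  have one : ∀ (a : k) (m : Fin 3 →₀ ℕ), a ≠ 0 → m.degree = 2 → monomial m a ∉ Ideal.span S :=
    fun a m ha hm hmem => by
      obtain ⟨e, i, he⟩ := mon2 (k := k) m hm
      obtain ⟨j, hj⟩ := exists_ne i
      exact F a 0 ha e e i j (fun h => hj h.2.symm) (by simpa [← he, smul_monomial] using hmem)
        fun h => absurd h.symm hj
  have hm : ∀ (a : k) (m : Fin 3 →₀ ℕ), homogeneousComponent 2 (monomial m a) =
      if 2 = m.degree then monomial m a else 0 := fun a m =>
    homogeneousComponent_of_mem (isHomogeneous_monomial a rfl)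
  rcases hS s hs with ⟨m, rfl⟩ | ⟨a, b, m, m', ha, hb, hmm, rfl⟩
  · rw [hm] at h0 hJ2
    split_ifs at h0 hJ2 with h1
    · exact one 1 m one_ne_zero h1.symm hJ2
    · exact h0 rfl
  · rw [map_add, hm, hm] at h0 hJ2
    split_ifs at h0 hJ2 with h1 h4 h4
    · obtain ⟨e, i, he⟩ := mon2 (k := k) m h1.symm
      obtain ⟨e', j, he'⟩ := mon2 (k := k) m' h4.symm
      refine F a b ha e e' i j ?_ (by simpa [← he, ← he', smul_monomial] using hJ2) fun _ => hb
      rintro ⟨rfl, rfl⟩
      exact hmm (monomial_left_injective one_ne_zero (he.trans he'.symm))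
    · exact one a m ha h1.symm (by simpa using hJ2)
    · exact one b m' hb h4.symm (by simpa using hJ2)
    · simp at h0

end Pool.Agent.Results.MP_f9b6b5_al.Counter
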